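import Pool.Agent.Helper18.UW.GoalsA

/-!
# Packet UW-MV: mean value theorem for iterated differences
-/

set_option autoImplicit false

namespace Pool.Agent.Helper35.UW

open Finset Pool.Agent.Helper18.UW

theorem Df_cons (h : ℝ) (hs : List ℝ) (f : ℝ → ℝ) (x : ℝ) :
    Df (h :: hs) f x = Df hs f (x + h) - Df hs f x := rfl

theorem Df_smul (c : ℝ) : ∀ (hs : List ℝ) (f : ℝ → ℝ) (x : ℝ),
    Df hs (fun t => c * f t) x = c * Df hs f x := by
  intro hs
  induction hs with
  | nil => intro f x; rfl
  | cons h hs ih =>
    intro f x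
    rw [Df_cons, Df_cons, ih, ih]
    ring

theorem Df_deriv : ∀ (hs : List ℝ), (∀ h ∈ hs, 0 < h) → ∀ (f f' : ℝ → ℝ),
    (∀ t, 0 < t → HasDerivAt f (f' t) t) → ∀ y, 0 < y →
    HasDerivAt (fun y => Df hs f y) (Df hs f' y) y := by
  intro hs
  induction hs with
  | nil => intro _ f f' hf y hy; exact hf y hy
  | cons h hs ih =>
    intro hpos f f' hf y hy
    have hh : 0 < h := hpos h (by simp)
    have ih' := ih (fun t ht => hpos t (by simp [ht])) f f' hf
    have h1 := (ih' (y + h) (by linarith)).comp_add_const y h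
    exact h1.sub (ih' y hy)

theorem goalMV : GoalMV := by
  intro hs
  induction hs with
  | nil =>
    intro α x _ hx
    refine ⟨x, le_rfl, by simp, ?_⟩
    simp [Df]
  | cons h hs ih =>
    intro α x hpos hx
    have hh : 0 < h := hpos h (by simp)
    have hpos' : ∀ t ∈ hs, 0 < t := fun t ht => hpos t (by simp [ht])
    have hd : ∀ y, 0 < y → HasDerivAt (fun y => Df hs (fun t => t ^ α) y)
        (Df hs (fun t => α * t ^ (α - 1)) y) y :=
      Df_deriv hs hpos' _ _ fun t ht => by
        have := Real.hasDerivAt_rpow_const (x := t) (p := α) (Or.inl ht.ne')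
        exact this
    obtain ⟨y1, hy1, hy2⟩ := exists_hasDerivAt_eq_slope (fun y => Df hs (fun t => t ^ α) y)
      (fun y => Df hs (fun t => α * t ^ (α - 1)) y) (by linarith : x < x + h)
      (fun y hy => ((hd y (by linarith [hy.1])).continuousAt).continuousWithinAt)
      (fun y hy => hd y (by linarith [hy.1]))
    obtain ⟨ξ, h1, h2, h3⟩ := ih (α - 1) y1 hpos' (by linarith [hy1.1])
    refine ⟨ξ, by linarith [hy1.1], ?_, ?_⟩
    · rw [List.sum_cons]
      linarith [hy1.2]
    · have e1 : Df (h :: hs) (fun t => t ^ α) x =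
          h * (α * Df hs (fun t => t ^ (α - 1)) y1) := by
        rw [Df_cons]
        have e2 : Df hs (fun t => α * t ^ (α - 1)) y1 =
            α * Df hs (fun t => t ^ (α - 1)) y1 := Df_smul α hs _ y1
        have hy2' : Df hs (fun t => α * t ^ (α - 1)) y1 =
            (Df hs (fun t => t ^ α) (x + h) - Df hs (fun t => t ^ α) x) / (x + h - x) := hy2
        rw [← e2, hy2']
        have : x + h - x = h := by ring
        rw [this]
        field_simp
      rw [e1, h3, List.prod_cons, List.length_cons, prod_range_succ']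
      have e3 : ∏ j ∈ range hs.length, (α - 1 - (j : ℝ)) =
          ∏ j ∈ range hs.length, (α - ((j + 1 : ℕ) : ℝ)) := by
        refine prod_congr rfl fun j _ => ?_
        push_cast
        ring
      have e4 : α - 1 - (hs.length : ℝ) = α - ((hs.length + 1 : ℕ) : ℝ) := by
        push_cast
        ring
      rw [e3, e4]
      push_cast
      ring

end Pool.Agent.Helper35.UW
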