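import Pool.Agent.Helper18.UW.GoalsA

/-!
# Packet UW-Pig: pigeonhole
-/

set_option autoImplicit false

namespace Pool.Agent.Helper35.UW

open Finset Pool.Agent.Helper18.UW

theorem goalPig : GoalPig := by
  intro A m M d hA hM hd hsum
  set L : ℕ := lg M with hL
  have hL10 : 10 ≤ L := by rw [hL]; unfold lg; omega
  set Q : ℕ := 2 ^ 60 * L ^ 2 with hQ
  have hQ0 : 0 < Q := by positivity
  set A' : Finset ℕ := A.filter (fun k => d < 28 * m k ^ 2) with hA'
  -- the class of a point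
  set J : ℕ → ℕ := fun k => Nat.log 2 (m k) with hJ
  set Δ : ℕ → ℕ := fun j => 2 ^ j / Q with hΔ
  set I : ℕ → ℕ := fun k => (m k - 2 ^ J k) / (Δ (J k) + 1) with hI
  have hmem : ∀ k ∈ A', (J k, I k) ∈ range L ×ˢ range Q := by
    intro k hk
    have hkA := (mem_filter.1 hk).1
    obtain ⟨h1, h2⟩ := hA k hkA
    rw [mem_product, mem_range, mem_range]
    constructor
    · show Nat.log 2 (m k) < L
      have : Nat.log 2 (m k) ≤ Nat.log 2 M := Nat.log_mono_right h2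
      rw [hL]; unfold lg; omega
    · show (m k - 2 ^ J k) / (Δ (J k) + 1) < Q
      rw [Nat.div_lt_iff_lt_mul (by omega)]
      have h3 : m k < 2 ^ (J k + 1) := Nat.lt_pow_succ_log_self (by norm_num) _
      have h4 : 2 ^ J k < Q * (2 ^ J k / Q + 1) := Nat.lt_mul_div_succ _ hQ0
      have h5 : (2 : ℕ) ^ (J k + 1) = 2 * 2 ^ J k := by ring
      show m k - 2 ^ J k < Q * (2 ^ J k / Q + 1)
      omega
  have hex : ∃ c ∈ range L ×ˢ range Q, 1000 * M * (d + 1) ≤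
      ∑ k ∈ A'.filter (fun k => (J k, I k) = c), (m k + 1).choose 2 := by
    by_contra hcon
    push Not at hcon
    have h1 : ∑ k ∈ A', (m k + 1).choose 2 ≤ (L * Q) * (1000 * M * (d + 1)) := by
      rw [← sum_fiberwise_of_maps_to hmem]
      calc ∑ c ∈ range L ×ˢ range Q, ∑ k ∈ A'.filter (fun k => (J k, I k) = c),
            (m k + 1).choose 2 ≤ ∑ _c ∈ range L ×ˢ range Q, 1000 * M * (d + 1) :=
            sum_le_sum fun c hc => (hcon c hc).le
        _ = (L * Q) * (1000 * M * (d + 1)) := by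
            rw [sum_const, card_product, card_range, card_range, smul_eq_mul]
    have h2 : d ^ 2 ≤ 10 ^ 6 * ((L * Q) * (1000 * M * (d + 1))) :=
      hsum.trans (Nat.mul_le_mul_left _ h1)
    have hX : 0 < L ^ 3 * M := by positivity
    have hd' : 2 ^ 400 * (L ^ 3 * M) ≤ d := by
      have : 2 ^ 400 * (L ^ 3 * M) = 2 ^ 400 * L ^ 3 * M := by ring
      rw [this]; exact hd
    have hd0 : 0 < d := lt_of_lt_of_le (by positivity) hd'
    have h3 : 10 ^ 6 * ((L * Q) * (1000 * M * (d + 1))) =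
        10 ^ 9 * 2 ^ 60 * (L ^ 3 * M) * (d + 1) := by
      rw [hQ]; ring
    rw [h3] at h2
    have h4 : 2 ^ 400 * (L ^ 3 * M) * d ≤ d ^ 2 := by
      rw [sq]; exact Nat.mul_le_mul_right _ hd'
    have h5 : 10 ^ 9 * 2 ^ 60 * (L ^ 3 * M) * (d + 1) ≤
        10 ^ 9 * 2 ^ 60 * (L ^ 3 * M) * (2 * d) := Nat.mul_le_mul_left _ (by omega)
    have h6 : 10 ^ 9 * 2 ^ 60 * (L ^ 3 * M) * (2 * d) = (10 ^ 9 * 2 ^ 61) * ((L ^ 3 * M) * d) := by
      ring
    have h7 : 2 ^ 400 * (L ^ 3 * M) * d = 2 ^ 400 * ((L ^ 3 * M) * d) := by ring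
    have h8 : 2 ^ 400 * ((L ^ 3 * M) * d) ≤ (10 ^ 9 * 2 ^ 61) * ((L ^ 3 * M) * d) := by
      rw [← h7, ← h6]
      exact h4.trans (h2.trans h5)
    have h9 : (2 : ℕ) ^ 400 ≤ 10 ^ 9 * 2 ^ 61 := Nat.le_of_mul_le_mul_right h8 (by positivity)
    have h10 : (2 : ℕ) ^ 200 ≤ 2 ^ 400 := Nat.pow_le_pow_right (by norm_num) (by norm_num)
    have h11 : (10 : ℕ) ^ 9 * 2 ^ 61 < 2 ^ 200 := by norm_num
    omega
  obtain ⟨⟨j, i⟩, -, hc⟩ := hex
  set F : Finset ℕ := A'.filter (fun k => (J k, I k) = (j, i)) with hF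
  have hne : F.Nonempty := by
    rw [nonempty_iff_ne_empty]
    intro h
    rw [h, sum_empty] at hc
    have : 0 < 1000 * M * (d + 1) := by positivity
    omega
  obtain ⟨k0, hk0, hmax⟩ := F.exists_max_image m hne
  have hk0' := mem_filter.1 hk0
  have hk0A := mem_filter.1 hk0'.1
  have hj0 : J k0 = j := (Prod.mk.inj hk0'.2).1
  have hi0 : I k0 = i := (Prod.mk.inj hk0'.2).2
  obtain ⟨hm1, hm2⟩ := hA k0 hk0A.1
  refine ⟨m k0, Δ j, hm2, hk0A.2, ?_, hc.trans (sum_le_sum_of_subset ?_)⟩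
  · have h1 : Q * (2 ^ j / Q) ≤ 2 ^ j := Nat.mul_div_le _ _
    have h2 : 2 ^ Nat.log 2 (m k0) ≤ m k0 := Nat.pow_log_le_self 2 (by omega)
    have h3 : Nat.log 2 (m k0) = j := hj0
    rw [h3] at h2
    exact h1.trans h2
  · intro k hk
    have hk' := mem_filter.1 hk
    have hkA := mem_filter.1 hk'.1
    have hj1 : J k = j := (Prod.mk.inj hk'.2).1
    have hi1 : I k = i := (Prod.mk.inj hk'.2).2
    obtain ⟨hn1, hn2⟩ := hA k hkA.1
    rw [mem_filter]
    refine ⟨hkA.1, ?_, hmax k hk⟩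
    have e1 : (m k - 2 ^ j) / (Δ j + 1) = i := by
      have : (m k - 2 ^ J k) / (Δ (J k) + 1) = i := hi1
      rwa [hj1] at this
    have e0 : (m k0 - 2 ^ j) / (Δ j + 1) = i := by
      have : (m k0 - 2 ^ J k0) / (Δ (J k0) + 1) = i := hi0
      rwa [hj0] at this
    have p1 : 2 ^ j ≤ m k := by
      have h2 : 2 ^ Nat.log 2 (m k) ≤ m k := Nat.pow_log_le_self 2 (by omega)
      have h3 : Nat.log 2 (m k) = j := hj1
      rwa [h3] at h2
    have p0 : 2 ^ j ≤ m k0 := by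
      have h2 : 2 ^ Nat.log 2 (m k0) ≤ m k0 := Nat.pow_log_le_self 2 (by omega)
      have h3 : Nat.log 2 (m k0) = j := hj0
      rwa [h3] at h2
    have q1 : (Δ j + 1) * i ≤ m k - 2 ^ j := by
      rw [← e1]; exact Nat.mul_div_le _ _
    have q0 : m k0 - 2 ^ j < (Δ j + 1) * (i + 1) := by
      rw [← e0]; exact Nat.lt_mul_div_succ _ (by omega)
    have q2 : (Δ j + 1) * (i + 1) = (Δ j + 1) * i + (Δ j + 1) := by ring
    omega

end Pool.Agent.Helper35.UW
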