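import Pool.Agent.Helper53.UW.Ask
import Pool.Agent.Helper56.Sus3.LSE

/-!
# PROJECT UR3 (MP_c578c8_lc), packet UW-OLE: the edges with an oracle

The same as `Pool/Agent/Helper56/Sus3/LSE`, with `OL` instead of `LS`.
-/

namespace Pool.Agent.Helper35.UW

open Pool.Agent.Helper53.UW
open Pool.Agent.Helper65.LinSpace Pool.Agent.Helper78.Mpc Pool.Agent.Helper28.Ram Finset Filter
open Pool.Agent.Helper81.Sus2 Pool.Agent.Helper81.Sus2H56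
open Pool.Agent.Helper81.Sus2H14 (ls_pV ls_pu)
open Pool.Agent.Helper81.Sus3 (iC iP iZ)
open Pool.Agent.Helper31.SusD (nxt nxt_lt lst)
open Pool.Agent.Helper56.Sus3 (eq01_le lt01_le all_le chk_le fin_le ls_iC ls_iP ls_iZ)
open Pool.Agent.Helper31.OL (OL OL.comp OL.comp_ls OL.of_ls OL.prodMk OL.ifz OL.mul
  OL.sub OL.add OL.lt01 OL.eq01 OL.mod OL.div OL.lst OL.nrec OL.sum_le')

section

variable {κ : Type} [Ctx κ] {acc : κ → ℕ}

theorem ol_nxt {α : Type} [Ctx α] {chk : α → ℕ → ℕ → ℕ → ℕ} {N Z c : α → ℕ} (hN : LS N)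
    (hZ : LS Z) (hc : LS c)
    (hchk : OL acc (fun z : α × ℕ × ℕ × ℕ => chk z.1 z.2.1 z.2.2.1 z.2.2.2))
    (h1 : ∀ a c τ d, chk a c τ d ≤ 1) :
    OL acc (fun a => nxt (chk a) (N a) (Z a) (c a)) := by
  have hl : OL acc (fun a => lst (N a * Z a) fun m => chk a (c a) (m / Z a) (m % Z a)) := by
    refine OL.lst (LS.mul hN hZ) ?_ fun a m => h1 _ _ _ _
    have hZ' : LS (fun z : α × ℕ => Z z.1) := LS.comp (g := Z) hZ LS.fst
    have hc' : LS (fun z : α × ℕ => c z.1) := LS.comp (g := c) hc LS.fst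
    exact OL.comp_ls (g := fun z : α × ℕ × ℕ × ℕ => chk z.1 z.2.1 z.2.2.1 z.2.2.2)
      (f := fun z : α × ℕ => (z.1, c z.1, z.2 / Z z.1, z.2 % Z z.1)) hchk (by fun_prop)
  unfold nxt
  exact OL.ifz (OL.of_ls hc) (OL.of_ls (LS.const 0)) (OL.ifz (OL.lt01 hl
    (OL.of_ls (LS.mul hN hZ))) (OL.of_ls (LS.const 0)) (OL.mod hl (OL.of_ls hZ)))

variable {β : Type} [Ctx β] {P : β → Prm} {C : β → ℕ}
  {F : β → ℕ → ℕ → ℕ → ℕ → ℕ → ℕ → ℕ → ℕ}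

/-- the hypothesis on `F` -/
def OF (acc : κ → ℕ) (F : β → ℕ → ℕ → ℕ → ℕ → ℕ → ℕ → ℕ → ℕ) : Prop :=
  OL acc (fun z : β × ℕ × ℕ × ℕ × ℕ × ℕ × ℕ × ℕ => F z.1 z.2.1 z.2.2.1 z.2.2.2.1 z.2.2.2.2.1
    z.2.2.2.2.2.1 z.2.2.2.2.2.2.1 z.2.2.2.2.2.2.2)

theorem of_comp {γ : Type} [Ctx γ] (h : OF acc F) {π : γ → β} (hπ : LS π) :
    OF acc (fun b => F (π b)) := by
  unfold OF at h ⊢
  have hπ' : LS (fun z : γ × ℕ × ℕ × ℕ × ℕ × ℕ × ℕ × ℕ => π z.1) := LS.comp (g := π) hπ LS.fst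
  exact OL.comp_ls (g := fun z : β × ℕ × ℕ × ℕ × ℕ × ℕ × ℕ × ℕ => F z.1 z.2.1 z.2.2.1 z.2.2.2.1
    z.2.2.2.2.1 z.2.2.2.2.2.1 z.2.2.2.2.2.2.1 z.2.2.2.2.2.2.2)
    (f := fun z : γ × ℕ × ℕ × ℕ × ℕ × ℕ × ℕ × ℕ => (π z.1, z.2)) h (by fun_prop)

theorem ol_bad (h : LSP P C) (hF : OF acc F) {m c p d p' Y τ a : β → ℕ} (hm : LS m) (hc : LS c)
    (hp : LS p) (hd : LS d) (hp' : LS p') (hY : LS Y) (hτ : LS τ) (ha : LS a) :
    OL acc fun z => Pool.Agent.Helper81.Sus3.bad (P z) (F z) (m z) (c z) (p z) (d z) (p' z) (Y z)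
      (τ z) (a z) := by
  unfold Pool.Agent.Helper81.Sus3.bad
  have hcl : LS fun z => (P z).cl (d z) (a z) := ls_cl h hd ha
  have hro : LS fun z => Prm.ro (a z) := ls_ro ha
  have hFF : OL acc fun z => F z (c z) (p z) (d z) (p' z) (Y z) (τ z) (a z) :=
    OL.comp_ls (g := fun z : β × ℕ × ℕ × ℕ × ℕ × ℕ × ℕ × ℕ => F z.1 z.2.1 z.2.2.1 z.2.2.2.1
      z.2.2.2.2.1 z.2.2.2.2.2.1 z.2.2.2.2.2.2.1 z.2.2.2.2.2.2.2)
      (f := fun z : β => (z, c z, p z, d z, p' z, Y z, τ z, a z)) hF (by fun_prop)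
  exact OL.ifz (OL.of_ls (LS.ifz ha (LS.const 1) (LS.mul (LS.lt01 (LS.const 0) hd)
    (LS.mul (LS.sub (LS.const 1) hro) (LS.ifz hm (LS.lt01 (LS.const 0) hcl) (LS.const 1))))))
    (OL.of_ls (LS.const 0)) (OL.sub (OL.of_ls (LS.const 1)) (OL.eq01 hFF (OL.of_ls (LS.const 1))))

theorem ol_all (h : LSP P C) (hF : OF acc F) {m c p d p' Y τ : β → ℕ} (hm : LS m) (hc : LS c)
    (hp : LS p) (hd : LS d) (hp' : LS p') (hY : LS Y) (hτ : LS τ) :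
    OL acc fun z => Pool.Agent.Helper81.Sus3.all (P z) (F z) (m z) (c z) (p z) (d z) (p' z) (Y z)
      (τ z) := by
  unfold Pool.Agent.Helper81.Sus3.all
  refine OL.eq01 ?_ (OL.of_ls (LS.const 0))
  refine OL.sum_le' (N := fun z => 2 ^ ((P z).S + 1)) (B := fun _ => 1)
    (f := fun z a => Pool.Agent.Helper81.Sus3.bad (P z) (F z) (m z) (c z) (p z) (d z) (p' z)
      (Y z) (τ z) a) ?_ (ls_pS h) (LS.const 1) fun z a _ => ?_
  · exact ol_bad (β := β × ℕ) (P := fun z => P z.1) (C := fun z => C z.1) (F := fun z => F z.1)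
      (lsp_comp h LS.fst) (of_comp hF LS.fst) (m := fun z => m z.1) (c := fun z => c z.1)
      (p := fun z => p z.1) (d := fun z => d z.1) (p' := fun z => p' z.1) (Y := fun z => Y z.1)
      (τ := fun z => τ z.1) (a := fun z => z.2) (LS.comp (g := m) hm LS.fst)
      (LS.comp (g := c) hc LS.fst) (LS.comp (g := p) hp LS.fst) (LS.comp (g := d) hd LS.fst)
      (LS.comp (g := p') hp' LS.fst) (LS.comp (g := Y) hY LS.fst) (LS.comp (g := τ) hτ LS.fst)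
      (by fun_prop)
  · unfold Pool.Agent.Helper81.Sus3.bad ifz
    split_ifs <;> omega

/-- `all` with arguments which are computed with the oracle. -/
theorem ol_all' (h : LSP P C) (hF : OF acc F) {m c p d p' Y τ : β → ℕ} (hm : OL acc m)
    (hc : OL acc c) (hp : OL acc p) (hd : OL acc d) (hp' : OL acc p') (hY : OL acc Y)
    (hτ : OL acc τ) :
    OL acc fun z => Pool.Agent.Helper81.Sus3.all (P z) (F z) (m z) (c z) (p z) (d z) (p' z) (Y z)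
      (τ z) := by
  have h0 : OL acc (fun z : β × ℕ × ℕ × ℕ × ℕ × ℕ × ℕ × ℕ => Pool.Agent.Helper81.Sus3.all
      (P z.1) (F z.1) z.2.1 z.2.2.1 z.2.2.2.1 z.2.2.2.2.1 z.2.2.2.2.2.1 z.2.2.2.2.2.2.1
      z.2.2.2.2.2.2.2) :=
    ol_all (β := β × ℕ × ℕ × ℕ × ℕ × ℕ × ℕ × ℕ) (P := fun z => P z.1) (C := fun z => C z.1)
      (F := fun z => F z.1) (lsp_comp h LS.fst) (of_comp hF LS.fst) (m := fun z => z.2.1)
      (c := fun z => z.2.2.1) (p := fun z => z.2.2.2.1) (d := fun z => z.2.2.2.2.1)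
      (p' := fun z => z.2.2.2.2.2.1) (Y := fun z => z.2.2.2.2.2.2.1)
      (τ := fun z => z.2.2.2.2.2.2.2) (by fun_prop) (by fun_prop) (by fun_prop) (by fun_prop)
      (by fun_prop) (by fun_prop) (by fun_prop)
  exact OL.comp (g := fun z : β × ℕ × ℕ × ℕ × ℕ × ℕ × ℕ × ℕ => Pool.Agent.Helper81.Sus3.all
      (P z.1) (F z.1) z.2.1 z.2.2.1 z.2.2.2.1 z.2.2.2.2.1 z.2.2.2.2.2.1 z.2.2.2.2.2.2.1
      z.2.2.2.2.2.2.2) (f := fun z : β => (z, m z, c z, p z, d z, p' z, Y z, τ z)) h0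
    (OL.prodMk (OL.of_ls LS.id) (OL.prodMk hm (OL.prodMk hc (OL.prodMk hp (OL.prodMk hd
      (OL.prodMk hp' (OL.prodMk hY hτ)))))))

theorem ol_chk (h : LSP P C) (hF : OF acc F) {Y e τ e' : β → ℕ} (hY : LS Y) (he : LS e)
    (hτ : LS τ) (he' : LS e') :
    OL acc fun z => Pool.Agent.Helper81.Sus3.chk (P z) (F z) (Y z) (e z) (τ z) (e' z) := by
  unfold Pool.Agent.Helper81.Sus3.chk
  exact OL.mul (OL.of_ls (LS.lt01 (LS.const 0) hτ)) (OL.mul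
    (OL.of_ls (LS.lt01 (LS.const 0) (ls_iC h he')))
    (ol_all h hF (LS.const 1) (ls_iC h he) (ls_iP h he) (ls_iC h he') (ls_iP h he') hY hτ))

theorem ol_fin (h : LSP P C) (hF : OF acc F) {d Y e τ : β → ℕ} (hd : LS d) (hY : LS Y)
    (he : OL acc e) (hτ : LS τ) :
    OL acc fun z => Pool.Agent.Helper81.Sus3.fin (P z) (F z) (d z) (Y z) (e z) (τ z) := by
  unfold Pool.Agent.Helper81.Sus3.fin
  have hu : LS fun z => (P z).u + 1 := LS.add h.u (LS.const 1)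
  exact ol_all' h hF (OL.of_ls (LS.const 0)) (OL.div he (OL.of_ls hu)) (OL.mod he (OL.of_ls hu))
    (OL.of_ls hd) (OL.of_ls hu) (OL.of_ls hY) (OL.of_ls hτ)

theorem ol_seq (h : LSP P C) (hF : OF acc F) {Y c j : β → ℕ} (hY : LS Y) (hc : LS c)
    (hj : LS j) :
    OL acc fun z => Pool.Agent.Helper81.Sus3.seq (P z) (F z) (Y z) (c z) (j z) := by
  unfold Pool.Agent.Helper81.Sus3.seq
  have hG : LS fun z => ((P z).u + 1) * c z := LS.mul (LS.add h.u (LS.const 1)) hc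
  refine OL.nrec (G := fun z => ((P z).u + 1) * c z) (N := j)
    (C := fun z => ((P z).u + 1) * c z + (iZ (P z) + 1))
    (K := fun z _ e => nxt (Pool.Agent.Helper81.Sus3.chk (P z) (F z) (Y z)) (2 ^ (P z).V)
      (iZ (P z)) e) (OL.of_ls hG) (OL.of_ls hj) (LS.add hG (LS.add (ls_iZ h) (LS.const 1))) ?_ ?_
  · have hpV := ls_pV h
    have hiZ := ls_iZ h
    refine ol_nxt (α := β × ℕ × ℕ)
      (chk := fun z => Pool.Agent.Helper81.Sus3.chk (P z.1) (F z.1) (Y z.1))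
      (N := fun z => 2 ^ (P z.1).V) (Z := fun z => iZ (P z.1)) (c := fun z => z.2.2)
      (LS.comp (g := fun z => 2 ^ (P z).V) hpV LS.fst)
      (LS.comp (g := fun z => iZ (P z)) hiZ LS.fst) (by fun_prop) ?_ fun a c τ d => chk_le _ _ _ _ _ _
    have hπ : LS (fun z : (β × ℕ × ℕ) × ℕ × ℕ × ℕ => z.1.1) := by fun_prop
    exact ol_chk (β := (β × ℕ × ℕ) × ℕ × ℕ × ℕ) (P := fun z => P z.1.1) (C := fun z => C z.1.1)
      (F := fun z => F z.1.1) (lsp_comp h hπ) (of_comp hF hπ) (Y := fun z => Y z.1.1)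
      (e := fun z => z.2.1) (τ := fun z => z.2.2.1) (e' := fun z => z.2.2.2)
      (LS.comp (g := Y) hY hπ) (by fun_prop) (by fun_prop) (by fun_prop)
  · intro a i _
    cases i with
    | zero => exact Nat.le_add_right _ _
    | succ i =>
      have hZ : 0 < iZ (P a) := by
        unfold iZ
        positivity
      have := nxt_lt (Pool.Agent.Helper81.Sus3.chk (P a) (F a) (Y a)) (2 ^ (P a).V) hZ
        (nrec (((P a).u + 1) * c a) (fun _ e => nxt (Pool.Agent.Helper81.Sus3.chk (P a) (F a)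
          (Y a)) (2 ^ (P a).V) (iZ (P a)) e) i)
      show nxt (Pool.Agent.Helper81.Sus3.chk (P a) (F a) (Y a)) (2 ^ (P a).V) (iZ (P a)) _ ≤ _
      omega

end

theorem gOLE : GoalOLE := by
  intro κ _ acc α _ P C h F hF
  -- the context with all variables
  have hπ4 : LS (fun z : (((α × ℕ × ℕ) × ℕ) × ℕ) × ℕ => z.1.1.1.1) := by fun_prop
  have h4 : LSP (fun z : (((α × ℕ × ℕ) × ℕ) × ℕ) × ℕ => P z.1.1.1.1)
      (fun z => C z.1.1.1.1) := lsp_comp h hπ4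
  have hF4 : OF acc (fun z : (((α × ℕ × ℕ) × ℕ) × ℕ) × ℕ => F z.1.1.1.1) := of_comp hF hπ4
  have hseq : OL acc (fun z : (((α × ℕ × ℕ) × ℕ) × ℕ) × ℕ =>
      Pool.Agent.Helper81.Sus3.seq (P z.1.1.1.1) (F z.1.1.1.1) z.1.1.2 z.1.1.1.2.1 z.1.2) :=
    ol_seq h4 hF4 (by fun_prop) (by fun_prop) (by fun_prop)
  have hfin : OL acc (fun z : (((α × ℕ × ℕ) × ℕ) × ℕ) × ℕ =>
      Pool.Agent.Helper81.Sus3.fin (P z.1.1.1.1) (F z.1.1.1.1) z.1.1.1.2.2 z.1.1.2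
        (Pool.Agent.Helper81.Sus3.seq (P z.1.1.1.1) (F z.1.1.1.1) z.1.1.2 z.1.1.1.2.1 z.1.2)
        z.2) :=
    ol_fin h4 hF4 (by fun_prop) (by fun_prop) hseq (by fun_prop)
  have hle : ∀ (P : Prm) (F : ℕ → ℕ → ℕ → ℕ → ℕ → ℕ → ℕ → ℕ) (s d Y e τ : ℕ),
      lt01 0 s * Pool.Agent.Helper81.Sus3.fin P F d Y e τ ≤ 1 := fun P F s d Y e τ =>
    (Nat.mul_le_mul (lt01_le _ _) (fin_le _ _ _ _ _ _)).trans (by norm_num)
  have h3 : LSP (fun z : ((α × ℕ × ℕ) × ℕ) × ℕ => P z.1.1.1) (fun z => C z.1.1.1) :=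
    lsp_comp h (by fun_prop)
  have hs1 : OL acc (fun z : ((α × ℕ × ℕ) × ℕ) × ℕ => ∑ τ ∈ range (2 ^ (P z.1.1.1).V),
      lt01 0 (Pool.Agent.Helper81.Sus3.seq (P z.1.1.1) (F z.1.1.1) z.1.2 z.1.1.2.1 z.2) *
        Pool.Agent.Helper81.Sus3.fin (P z.1.1.1) (F z.1.1.1) z.1.1.2.2 z.1.2
          (Pool.Agent.Helper81.Sus3.seq (P z.1.1.1) (F z.1.1.1) z.1.2 z.1.1.2.1 z.2) τ) :=
    OL.sum_le' (N := fun z : ((α × ℕ × ℕ) × ℕ) × ℕ => 2 ^ (P z.1.1.1).V) (B := fun _ => 1)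
      (f := fun z τ => lt01 0 (Pool.Agent.Helper81.Sus3.seq (P z.1.1.1) (F z.1.1.1) z.1.2
        z.1.1.2.1 z.2) * Pool.Agent.Helper81.Sus3.fin (P z.1.1.1) (F z.1.1.1) z.1.1.2.2 z.1.2
          (Pool.Agent.Helper81.Sus3.seq (P z.1.1.1) (F z.1.1.1) z.1.2 z.1.1.2.1 z.2) τ)
      (OL.mul (OL.lt01 (OL.of_ls (LS.const 0)) hseq) hfin) (ls_pV h3) (LS.const 1)
      fun z a _ => hle _ _ _ _ _ _ _
  have h2 : LSP (fun z : (α × ℕ × ℕ) × ℕ => P z.1.1) (fun z => C z.1.1) :=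
    lsp_comp h (by fun_prop)
  have hb1 : ∀ (P : Prm) (F : ℕ → ℕ → ℕ → ℕ → ℕ → ℕ → ℕ → ℕ) (c d Y j : ℕ),
      ∑ τ ∈ range (2 ^ P.V), lt01 0 (Pool.Agent.Helper81.Sus3.seq P F Y c j) *
        Pool.Agent.Helper81.Sus3.fin P F d Y (Pool.Agent.Helper81.Sus3.seq P F Y c j) τ ≤
      2 ^ P.V := fun P F c d Y j => by
    refine (sum_le_sum (g := fun _ => 1) fun i _ => hle _ _ _ _ _ _ _).trans ?_
    simp
  have hs2 : OL acc (fun z : (α × ℕ × ℕ) × ℕ => ∑ j ∈ range (iZ (P z.1.1) + 1),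
      ∑ τ ∈ range (2 ^ (P z.1.1).V),
      lt01 0 (Pool.Agent.Helper81.Sus3.seq (P z.1.1) (F z.1.1) z.2 z.1.2.1 j) *
        Pool.Agent.Helper81.Sus3.fin (P z.1.1) (F z.1.1) z.1.2.2 z.2
          (Pool.Agent.Helper81.Sus3.seq (P z.1.1) (F z.1.1) z.2 z.1.2.1 j) τ) :=
    OL.sum_le' (N := fun z : (α × ℕ × ℕ) × ℕ => iZ (P z.1.1) + 1)
      (B := fun z => 2 ^ (P z.1.1).V)
      (f := fun z j => ∑ τ ∈ range (2 ^ (P z.1.1).V),
      lt01 0 (Pool.Agent.Helper81.Sus3.seq (P z.1.1) (F z.1.1) z.2 z.1.2.1 j) *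
        Pool.Agent.Helper81.Sus3.fin (P z.1.1) (F z.1.1) z.1.2.2 z.2
          (Pool.Agent.Helper81.Sus3.seq (P z.1.1) (F z.1.1) z.2 z.1.2.1 j) τ)
      hs1 (LS.add (ls_iZ h2) (LS.const 1)) (ls_pV h2) fun z a _ => hb1 _ _ _ _ _ _
  have h1 : LSP (fun z : α × ℕ × ℕ => P z.1) (fun z => C z.1) := lsp_comp h (by fun_prop)
  have hs3 : OL acc (fun z : α × ℕ × ℕ => ∑ Y ∈ range (2 ^ (P z.1).u),
      ∑ j ∈ range (iZ (P z.1) + 1), ∑ τ ∈ range (2 ^ (P z.1).V),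
      lt01 0 (Pool.Agent.Helper81.Sus3.seq (P z.1) (F z.1) Y z.2.1 j) *
        Pool.Agent.Helper81.Sus3.fin (P z.1) (F z.1) z.2.2 Y
          (Pool.Agent.Helper81.Sus3.seq (P z.1) (F z.1) Y z.2.1 j) τ) := by
    refine OL.sum_le' (N := fun z : α × ℕ × ℕ => 2 ^ (P z.1).u)
      (B := fun z => (iZ (P z.1) + 1) * 2 ^ (P z.1).V)
      (f := fun z Y => ∑ j ∈ range (iZ (P z.1) + 1), ∑ τ ∈ range (2 ^ (P z.1).V),
      lt01 0 (Pool.Agent.Helper81.Sus3.seq (P z.1) (F z.1) Y z.2.1 j) *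
        Pool.Agent.Helper81.Sus3.fin (P z.1) (F z.1) z.2.2 Y
          (Pool.Agent.Helper81.Sus3.seq (P z.1) (F z.1) Y z.2.1 j) τ)
      hs2 (ls_pu h1) (LS.mul (LS.add (ls_iZ h1) (LS.const 1)) (ls_pV h1)) fun z Y _ => ?_
    refine (sum_le_sum (g := fun _ => 2 ^ (P z.1).V) fun i _ => hb1 _ _ _ _ _ _).trans ?_
    simp
  have hc : LS (fun z : α × ℕ × ℕ => z.2.1) := by fun_prop
  have hd : LS (fun z : α × ℕ × ℕ => z.2.2) := by fun_prop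
  unfold Pool.Agent.Helper81.Sus3.edge
  exact OL.add (OL.of_ls (LS.eq01 hc hd)) (OL.mul (OL.of_ls (LS.lt01 (LS.const 0) hc))
    (OL.mul (OL.of_ls (LS.ifz hd (LS.const 1) (LS.lt01 (LS.const 1) hd)))
      (OL.lt01 (OL.of_ls (LS.const 0)) hs3)))

end Pool.Agent.Helper35.UW
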