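import Pool.Agent.Helper53.UW.Num
import Pool.Agent.Helper81.Sus2.LSW

/-!
# PROJECT UR3 (MP_c578c8_lc), packet UW-OLS
-/

namespace Pool.Agent.Helper35.UW

open Pool.Agent.Helper53.UW
open Pool.Agent.Helper65.LinSpace Pool.Agent.Helper78.Mpc
open Pool.Agent.Helper31.OL (OL bit OL.ask0 OL.congr OL.mul OL.of_ls OL.comp_ls)
open Pool.Agent.Helper81.Sus2 (Prm LSP CS)
open Pool.Agent.Helper81.Sus2H56 (ls_cq)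
open Pool.Agent.Helper81.Sus3 (edge)

theorem bit_ans {κ : Type} (Q : QF κ) (z : κ) : bit Q.ans z = Q.ans z := by
  unfold bit QF.ans lt01
  split_ifs <;> first | rfl | omega

theorem gOLS : GoalOLS := by
  intro hE hP c₀
  obtain ⟨hprm, hok⟩ := hP.ls (ℕ × ℕ × ℕ × ℕ) c₀ (fun z => z.1) (fun z => z.2.1)
    (fun z => z.2.2.1) (fun z => z.2.2.2) (by fun_prop) (by fun_prop) (by fun_prop) (by fun_prop)
  have hF : OL (qW c₀).ans (fun z : (ℕ × ℕ × ℕ × ℕ) × ℕ × ℕ × ℕ × ℕ × ℕ × ℕ × ℕ =>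
      FW c₀ z.1.1 z.1.2.1 z.1.2.2.1 z.1.2.2.2 z.2.1 z.2.2.1 z.2.2.2.1 z.2.2.2.2.1
        z.2.2.2.2.2.1 z.2.2.2.2.2.2.1 z.2.2.2.2.2.2.2) :=
    OL.congr (OL.ask0 (acc := (qW c₀).ans)) (fun z => (bit_ans (qW c₀) z).symm)
  have hed := hE (qW c₀).ans (fun z : ℕ × ℕ × ℕ × ℕ => prmW c₀ z.1 z.2.1 z.2.2.1 z.2.2.2)
    (fun z => CS c₀ z.2.1) hprm (fun z => FW c₀ z.1 z.2.1 z.2.2.1 z.2.2.2) hF
  have hed' : OL (qW c₀).ans (fun z : ℕ × ℕ × ℕ × ℕ =>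
      edge (prmW c₀ z.1 z.2.1 z.2.2.1 z.2.2.2) (FW c₀ z.1 z.2.1 z.2.2.1 z.2.2.2) 1 0) :=
    OL.comp_ls (f := fun z : ℕ × ℕ × ℕ × ℕ => (z, 1, 0)) hed (by fun_prop)
  have hcq : LS (fun z : ℕ × ℕ × ℕ × ℕ =>
      lt01 0 ((prmW c₀ z.1 z.2.1 z.2.2.1 z.2.2.2).cq 1)) :=
    LS.lt01 (LS.const 0) (ls_cq hprm (LS.const 1))
  exact OL.mul (OL.of_ls hok) (OL.mul (OL.of_ls hcq) hed')

end Pool.Agent.Helper35.UW
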